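import Mathlib
import Pool.Agent.H60.CBTail.Main

/-!
MP_6c02f2_nt, partial result on Q1. Write `f(n)` for the sum of `1/p` over the primes `p < n`
which do not divide the central binomial coefficient `C(2n,n)`. For an absolute constant `C`,
every `N ≥ 16` and every real `K ≥ 1`, at most `N^(1 - K / log log N)` integers `n ≤ N` satisfy
`f(n) > log K + C`.
-/

set_option autoImplicit false

namespace Pool.Agent.Results.MP_6c02f2_nt.TailBound

/-- The number of `n ≤ N` with `f(n) > log K + C` is at most `N^(1 - K / log log N)`. -/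
theorem result : ∃ C : ℝ, ∀ N : ℕ, 16 ≤ N → ∀ K : ℝ, 1 ≤ K →
    (((Finset.range (N + 1)).filter fun n : ℕ => Real.log K + C <
      ∑ p ∈ (Finset.range n).filter (fun p => p.Prime ∧ ¬ p ∣ Nat.centralBinom n),
        (1 : ℝ) / (p : ℝ)).card : ℝ) ≤
      (N : ℝ) ^ (1 - K / Real.log (Real.log N)) :=
  Pool.Agent.H60.CBTail.tail

end Pool.Agent.Results.MP_6c02f2_nt.TailBound
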