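import Mathlib
import Pool.Agent.CBRecip.Final

namespace Pool.Agent.Results.MP_6c02f2_nt.TripleLog

/-- `f(n) ≤ log log log n + O(1)`, and for every `ε > 0` the primes `p > (log n)^ε` contribute
`O_ε(1)` to `f(n)`. -/
theorem result :
    (∃ C : ℝ, ∀ n : ℕ, 16 ≤ n →
      ∑ p ∈ (Finset.range n).filter (fun p => p.Prime ∧ ¬ p ∣ Nat.centralBinom n),
        (1 : ℝ) / (p : ℝ) ≤ Real.log (Real.log (Real.log n)) + C) ∧
    (∀ ε : ℝ, 0 < ε → ∃ C : ℝ, ∀ n : ℕ,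
      ∑ p ∈ (Finset.range n).filter (fun p => p.Prime ∧ ¬ p ∣ Nat.centralBinom n ∧
        Real.log n ^ ε < (p : ℝ)), (1 : ℝ) / (p : ℝ) ≤ C) :=
  ⟨Pool.Agent.CBRecip.main, fun _ hε => Pool.Agent.CBRecip.main_eps hε⟩

end Pool.Agent.Results.MP_6c02f2_nt.TripleLog
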